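import Mathlib

/-!
# Small nontrivial μ-Sondow numbers (MP_f2d551_nt)

We prove the conjecture `S_μ ∩ [2,|μ|] ≠ ∅` for all integers `μ` outside `{0,±1,±2,4,16}`, except
possibly for `μ = 2^(2^k)` with `k ≥ 1000`, `2^(2^k)+1` a (Fermat) prime and `k mod 2520` in an
explicit set of `609` residue classes.

Ideas.
* If `μ = 2^a m`, `m` odd, then `n = 2^(a+1)` is always a `μ`-Sondow number, and `n ≤ |μ|` as soon
  as `|m| ≥ 3`.
* If `μ = ± 2^a`, a prime factor of `μ + 1` works unless `μ + 1 = 2^a + 1` is prime, and then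
  `a = 2^k`.
* For `μ = 2^(2^k)` and an odd squarefree `n` the condition is `n ∣ ∑_{p ∣ n} n/p + 2^(2^k)`; for
  fixed `n` it only depends on `k` modulo some period.  Fifty-nine suitable `n` (for instance
  `n = 145 = 5 * 29` for all `k` divisible by `3`) cover `1911` of the `2520` residue classes of
  `k` modulo `2520`, and for every remaining `k < 1000` an individual `n` is given.
-/

namespace Pool.Agent.Results.MP_f2d551_nt.FermatReduction

/-- `n` is a `μ`-Sondow number: `n` is positive and for every prime `p` and `s ≥ 1` with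
`p ^ s ∣ n` and `p ^ (s+1) ∤ n` one has `p ^ s ∣ n / p + μ`. -/
def IsSondow (μ : ℤ) (n : ℕ) : Prop :=
  0 < n ∧ ∀ p s : ℕ, p.Prime → 0 < s → p ^ s ∣ n → ¬ p ^ (s + 1) ∣ n →
    ((p ^ s : ℕ) : ℤ) ∣ ((n / p : ℕ) : ℤ) + μ

/-! ### Kernel-friendly checks -/

/-- no odd `d` with `3 ≤ d ≤ 2F+1`, `d ≠ n`, divides `n` -/
def noOddDiv (n F : ℕ) : Bool :=
  Nat.rec (motive := fun _ => Bool) true
    (fun f ih => cond (Nat.beq (n % (2 * f + 3)) 0 && !(Nat.beq (2 * f + 3) n)) false ih) F

def isP (p : ℕ) : Bool :=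
  Nat.beq (p % 2) 1 && Nat.ble 3 p && noOddDiv p (2 ^ (Nat.log2 p / 2))

/-- `2 ^ e % p` for `e < 2 ^ fuel` -/
def pm (p fuel : ℕ) : ℕ → ℕ :=
  Nat.rec (motive := fun _ => ℕ → ℕ) (fun _ => 1 % p)
    (fun _ ih e => (ih (e / 2)) ^ 2 * 2 ^ (e % 2) % p) fuel

/-- `2 ^ (2 ^ k) % p` for a prime `p` -/
def X (p k : ℕ) : ℕ := pm p 32 (2 ^ k % (p - 1))

def sorted : List ℕ → Bool
  | [] => true
  | [_] => true
  | a :: b :: l => Nat.blt a b && sorted (b :: l)

lemma noOddDiv_spec (n F : ℕ) (h : noOddDiv n F = true) :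
    ∀ f < F, n % (2 * f + 3) = 0 → 2 * f + 3 = n := by
  induction F with
  | zero => intro f hf; omega
  | succ F ih =>
    have e : noOddDiv n (F+1) =
      cond (Nat.beq (n % (2 * F + 3)) 0 && !(Nat.beq (2 * F + 3) n)) false (noOddDiv n F) := rfl
    rw [e] at h
    cases hc : (Nat.beq (n % (2 * F + 3)) 0 && !(Nat.beq (2 * F + 3) n)) with
    | true => rw [hc] at h; simp at h
    | false =>
      rw [hc] at h
      simp only [cond_false] at h
      intro f hf hd
      rcases Nat.lt_succ_iff_lt_or_eq.1 hf with h1 | h1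
      · exact ih h f h1 hd
      · subst h1
        by_contra hne
        have : Nat.beq (n % (2 * f + 3)) 0 = true := Nat.beq_eq.symm ▸ hd
        have h2 : Nat.beq (2 * f + 3) n = false := by
          rw [← Bool.not_eq_true]; intro h3
          exact hne (Nat.beq_eq.mp h3)
        rw [this, h2] at hc
        simp at hc

lemma isP_spec (p : ℕ) (h : isP p = true) : p.Prime ∧ 3 ≤ p := by
  unfold isP at h
  rw [Bool.and_eq_true, Bool.and_eq_true] at h
  obtain ⟨⟨h1, h2⟩, h3⟩ := h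
  have h1' : p % 2 = 1 := Nat.eq_of_beq_eq_true h1
  have h2' : 3 ≤ p := Nat.le_of_ble_eq_true h2
  refine ⟨?_, h2'⟩
  by_contra hp
  have hsq := Nat.minFac_sq_le_self (by omega : 0 < p) hp
  have hdvd := Nat.minFac_dvd p
  have hq : p.minFac.Prime := Nat.minFac_prime (by omega)
  have hodd : p.minFac % 2 = 1 := by
    rcases Nat.mod_two_eq_zero_or_one p.minFac with h0 | h0
    · exfalso
      have : 2 ∣ p := dvd_trans (Nat.dvd_of_mod_eq_zero h0) hdvd
      omega
    · exact h0
  have h2q := hq.two_le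
  obtain ⟨f, hf⟩ : ∃ f, p.minFac = 2 * f + 3 := ⟨(p.minFac - 3)/2, by omega⟩
  have hlt : f < 2 ^ (Nat.log2 p / 2) := by
    have hL : p < 2 ^ (Nat.log2 p + 1) := Nat.lt_log2_self
    by_contra hge
    push Not at hge
    have h5 : 2 * 2 ^ (Nat.log2 p / 2) < p.minFac := by omega
    have h6 : (2 * 2 ^ (Nat.log2 p / 2))^2 < p.minFac ^ 2 := Nat.pow_lt_pow_left h5 (by omega)
    have h7 : (2 * 2 ^ (Nat.log2 p / 2))^2 = 2 ^ (2 * (Nat.log2 p / 2) + 2) := by
      rw [mul_pow, ← pow_mul]; ring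
    have h8 : 2 ^ (Nat.log2 p + 1) ≤ 2 ^ (2 * (Nat.log2 p / 2) + 2) :=
      Nat.pow_le_pow_right (by omega) (by omega)
    omega
  have := noOddDiv_spec p _ h3 f hlt (by rw [← hf]; exact Nat.mod_eq_zero_of_dvd hdvd)
  rw [← hf] at this
  rw [this] at hq
  exact hp hq

lemma pm_spec (p fuel : ℕ) : ∀ e, e < 2 ^ fuel → pm p fuel e = 2 ^ e % p := by
  induction fuel with
  | zero =>
    intro e he
    have : e = 0 := by simpa using he
    subst this
    rfl
  | succ f ih =>
    intro e he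
    have e1 : pm p (f+1) e = (pm p f (e / 2)) ^ 2 * 2 ^ (e % 2) % p := rfl
    rw [e1, ih (e/2) (by rw [pow_succ] at he; omega)]
    have h : 2 ^ e = (2 ^ (e/2))^2 * 2 ^ (e % 2) := by
      rw [← pow_mul, ← pow_add]; congr 1; omega
    rw [h]
    exact Nat.ModEq.mul_right _ ((Nat.mod_modEq _ _).pow 2)

lemma X_spec (p k : ℕ) (hp : p.Prime) (h3 : 3 ≤ p) (hle : p ≤ 2 ^ 32) :
    2 ^ (2 ^ k) ≡ X p k [MOD p] := by
  unfold X
  have hlt : 2 ^ k % (p - 1) < 2 ^ 32 := by
    have := Nat.mod_lt (2 ^ k) (by omega : 0 < p - 1)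
    omega
  rw [pm_spec p 32 _ hlt]
  have hcop : Nat.Coprime 2 p := by
    rw [Nat.coprime_primes Nat.prime_two hp]; omega
  have hF : 2 ^ (p - 1) ≡ 1 [MOD p] := by
    have := Nat.ModEq.pow_totient hcop
    rwa [Nat.totient_prime hp] at this
  have : 2 ^ (2 ^ k) = (2 ^ (p-1)) ^ (2 ^ k / (p - 1)) * 2 ^ (2 ^ k % (p - 1)) := by
    rw [← pow_mul, ← pow_add, Nat.div_add_mod]
  rw [this]
  have h2 := (hF.pow (2 ^ k / (p - 1))).mul_right (2 ^ (2 ^ k % (p - 1)))
  rw [one_pow, one_mul] at h2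
  exact h2.trans (Nat.mod_modEq _ _).symm

lemma period (p T : ℕ) (h : 2 ^ (2 ^ (8 + T)) ≡ 2 ^ (2 ^ 8) [MOD p]) (a m : ℕ) (ha : 8 ≤ a) :
    2 ^ (2 ^ (a + m * T)) ≡ 2 ^ (2 ^ a) [MOD p] := by
  have h1 : ∀ a, 8 ≤ a → 2 ^ (2 ^ (a + T)) ≡ 2 ^ (2 ^ a) [MOD p] := by
    intro a ha
    obtain ⟨i, rfl⟩ : ∃ i, a = 8 + i := ⟨a - 8, by omega⟩
    have e1 : 2 ^ (2 ^ (8 + i + T)) = (2 ^ (2 ^ (8 + T))) ^ (2 ^ i) := by
      rw [← pow_mul, ← pow_add]; congr 2; ring
    have e2 : 2 ^ (2 ^ (8 + i)) = (2 ^ (2 ^ 8)) ^ (2 ^ i) := by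
      rw [← pow_mul, ← pow_add]
    rw [e1, e2]
    exact h.pow _
  induction m with
  | zero => simp; rfl
  | succ m ih =>
    have e : a + (m+1) * T = (a + m * T) + T := by ring
    rw [e]
    exact (h1 _ (by omega)).trans ih

lemma period2 (p T : ℕ) (h : 2 ^ (2 ^ (8 + T)) ≡ 2 ^ (2 ^ 8) [MOD p]) (a b : ℕ) (ha : 8 ≤ a)
    (hb : 8 ≤ b) (hab : a % T = b % T) :
    2 ^ (2 ^ a) ≡ 2 ^ (2 ^ b) [MOD p] := by
  rcases le_total a b with hle | hle
  · obtain ⟨m, hm⟩ : ∃ m, b = a + m * T := by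
      have : T ∣ b - a := (Nat.modEq_iff_dvd' hle).1 hab
      obtain ⟨m, hm⟩ := this
      exact ⟨m, by rw [mul_comm]; omega⟩
    rw [hm]
    exact (period p T h a m ha).symm
  · obtain ⟨m, hm⟩ : ∃ m, a = b + m * T := by
      have : T ∣ a - b := (Nat.modEq_iff_dvd' hle).1 hab.symm
      obtain ⟨m, hm⟩ := this
      exact ⟨m, by rw [mul_comm]; omega⟩
    rw [hm]
    exact (period p T h b m hb)

lemma sorted_spec (l : List ℕ) (h : sorted l = true) : l.Pairwise (· < ·) := by
  have : l.IsChain (· < ·) := by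
    induction l with
    | nil => exact List.IsChain.nil
    | cons a l ih =>
      cases l with
      | nil => exact List.IsChain.singleton a
      | cons b l =>
        unfold sorted at h
        rw [Bool.and_eq_true] at h
        refine List.IsChain.cons_cons ?_ (ih h.2)
        have := Nat.blt_eq (x := a) (y := b)
        exact this.mp h.1
  exact List.isChain_iff_pairwise.1 this

lemma squarefree_prod (l : List ℕ) (hl : l.Pairwise (· < ·)) (hp : ∀ p ∈ l, p.Prime) :
    Squarefree l.prod := by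
  induction l with
  | nil => simp
  | cons a l ih =>
    rw [List.pairwise_cons] at hl
    rw [List.prod_cons]
    have h1 := ih hl.2 (fun p hpl => hp p (List.mem_cons_of_mem _ hpl))
    have ha := hp a List.mem_cons_self
    have hco : Nat.Coprime a l.prod := by
      rw [Nat.coprime_list_prod_right_iff]
      intro q hq
      rw [Nat.coprime_primes ha (hp q (List.mem_cons_of_mem _ hq))]
      exact (hl.1 q hq).ne
    rw [Nat.squarefree_mul hco]
    exact ⟨ha.squarefree, h1⟩

lemma sondow_of_list (l : List ℕ) (x : ℕ) (hl : l.Pairwise (· < ·)) (hp : ∀ p ∈ l, p.Prime)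
    (h : ∀ p ∈ l, p ∣ l.prod / p + x) : IsSondow (x : ℤ) l.prod := by
  have hsq := squarefree_prod l hl hp
  refine ⟨Nat.pos_of_ne_zero hsq.ne_zero, ?_⟩
  intro p s hpp hs hd hnd
  have hpl : p ∣ l.prod := dvd_trans (dvd_pow_self p hs.ne') hd
  have hs1 : s = 1 := by
    by_contra hne
    have h2 : 2 ≤ s := by omega
    have : p * p ∣ l.prod := by
      rw [← sq]; exact dvd_trans (pow_dvd_pow p h2) hd
    have := hsq p this
    exact hpp.one_lt.ne' (Nat.isUnit_iff.1 this)
  subst hs1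
  have hmem : p ∈ l := by
    rw [Prime.dvd_prod_iff hpp.prime] at hpl
    obtain ⟨q, hq, hpq⟩ := hpl
    rwa [(Nat.prime_dvd_prime_iff_eq hpp (hp q hq)).1 hpq]
  have := h p hmem
  rw [pow_one]
  exact_mod_cast this

def check1 (e : List ℕ × ℕ × ℕ) : Bool :=
  e.1.all isP && sorted e.1 && Nat.ble (e.1.prod) (2 ^ 32 * 2 ^ 32) && e.1.all (fun p => Nat.ble p (2 ^ 32)) &&
  e.1.all (fun p => Nat.beq (X p (8 + e.2.1)) (X p 8)) &&
  e.1.all (fun p => Nat.beq ((e.1.prod / p + X p (2520 + e.2.2)) % p) 0) &&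
  Nat.beq (2520 % e.2.1) 0 && Nat.ble 1 e.2.1 && !(e.1.isEmpty)

def check2 (e : ℕ × List ℕ) : Bool :=
  e.2.all isP && sorted e.2 && Nat.ble (e.2.prod) (2 ^ (2 ^ (min e.1 7))) && e.2.all (fun p => Nat.ble p (2 ^ 32)) &&
  e.2.all (fun p => Nat.beq ((e.2.prod / p + X p e.1) % p) 0) && !(e.2.isEmpty)

/-- `(l, T, r)`: the product `n` of the primes in `l` is `2^(2^k)`-Sondow for all `k ≥ 8`,
`k ≡ r (mod T)`. -/
def L1 : List (List ℕ × ℕ × ℕ) :=
  [([5, 29], 3, 0),
   ([97, 353], 10, 3),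
   ([3, 11, 19], 12, 4),
   ([13, 101], 20, 4),
   ([3, 11, 73, 103], 24, 5),
   ([3, 5, 11, 19, 137], 24, 10),
   ([5, 7, 19, 223], 36, 1),
   ([5, 99409], 36, 14),
   ([5, 197, 337], 42, 5),
   ([7, 11, 23, 199], 60, 29),
   ([53, 5953], 60, 34),
   ([17, 2549], 84, 8),
   ([3, 17, 59, 131], 84, 37),
   ([17, 46817], 90, 40),
   ([613, 617], 120, 1),
   ([3, 7, 23, 43, 613, 673], 120, 35),
   ([23, 83, 251, 18973], 120, 97),
   ([3, 5, 19, 2647], 126, 70),
   ([59, 61, 151, 2543], 140, 109),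
   ([89, 1741], 140, 127),
   ([349, 613], 168, 17),
   ([11, 73, 307, 2939], 168, 55),
   ([3, 53, 131, 173, 307], 168, 61),
   ([337, 9769], 180, 61),
   ([821, 47881], 180, 70),
   ([13, 29, 9461], 210, 67),
   ([41, 43, 223, 1291], 252, 68),
   ([3, 5, 11, 59, 73, 229], 252, 113),
   ([5, 13, 19, 59, 223], 252, 235),
   ([17, 101, 1973], 280, 59),
   ([3, 83, 11527], 280, 256),
   ([293, 24889], 360, 56),
   ([3, 11, 392299], 360, 161),
   ([18089, 30493], 360, 320),
   ([3, 199, 647], 360, 349),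
   ([2437, 2441], 420, 1),
   ([3, 227, 859], 420, 35),
   ([3, 5, 71, 563], 420, 49),
   ([3, 5, 7, 60919], 420, 308),
   ([19, 59, 83], 420, 310),
   ([17, 8053, 15137], 420, 322),
   ([173, 1301], 420, 325),
   ([3, 19, 23, 133633], 420, 337),
   ([19, 367, 87011], 420, 368),
   ([7, 59, 2311, 10151], 420, 385),
   ([10321, 10337], 504, 2),
   ([11173, 11177], 630, 1),
   ([3, 23, 44119], 630, 418),
   ([3, 7, 2699], 630, 508),
   ([241, 2235773], 840, 332),
   ([5, 11, 223, 563], 1260, 599),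
   ([457, 701, 929], 1260, 667),
   ([7, 23, 419, 26833], 1260, 691),
   ([13, 853, 2221], 1260, 866),
   ([23, 59, 9491], 1260, 1075),
   ([293, 10973], 1260, 1159),
   ([3, 13, 10847, 22807], 2520, 116),
   ([11, 23, 647, 3527], 2520, 695),
   ([3, 23, 59, 1259], 2520, 811)]

/-- `(k, l)`: the product of the primes in `l` is `2^(2^k)`-Sondow. -/
def L2 : List (ℕ × List ℕ) :=
  [(3, [5, 29]),
   (4, [3, 11, 19]),
   (5, [3, 11, 73, 103]),
   (6, [5, 29]),
   (7, [3, 31, 18959]),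
   (11, [3, 23, 47, 16091]),
   (19, [3, 79, 1187]),
   (20, [3, 7, 13, 479]),
   (22, [5, 6869]),
   (25, [773, 20717, 1948993]),
   (26, [7, 79, 167]),
   (31, [3, 7, 71387]),
   (32, [3, 23, 53, 223, 863]),
   (38, [7, 347, 2467]),
   (41, [2269, 6421]),
   (46, [5, 60589]),
   (62, [3, 211, 1654727]),
   (65, [3, 5, 31, 163]),
   (71, [3, 37, 167, 1759]),
   (74, [5, 14549]),
   (79, [13, 71777]),
   (80, [5, 17, 4957]),
   (85, [389, 3769]),
   (91, [7, 347, 557, 607]),
   (95, [3677, 18041]),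
   (98, [5101, 5641]),
   (107, [41, 134921]),
   (110, [3, 7, 10343]),
   (115, [3, 23, 61, 21379]),
   (118, [3, 17, 607, 1229, 3167]),
   (119, [5, 11, 263, 643]),
   (128, [7, 31, 5779]),
   (134, [3, 7, 2449619]),
   (137, [3, 67, 29339]),
   (139, [3, 7, 13, 839]),
   (140, [3, 19, 127, 89303]),
   (142, [13, 52673]),
   (146, [389, 12821]),
   (151, [3, 683, 2503]),
   (152, [3, 13, 17, 19, 787]),
   (157, [3, 7, 6689, 2064379]),
   (166, [5, 10289]),
   (167, [157, 1360589]),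
   (169, [3, 11, 167, 1103]),
   (170, [13, 1181, 2621]),
   (175, [3, 89, 127, 283]),
   (179, [3, 13, 103, 107]),
   (182, [11, 47, 113, 151]),
   (187, [3, 11, 11923]),
   (188, [701, 1260881]),
   (190, [3, 31, 179, 25933]),
   (191, [3, 13, 17, 227, 5351]),
   (199, [3, 5, 11, 3203]),
   (200, [3, 11, 13, 977, 1536467]),
   (206, [3, 19, 70997, 1224439]),
   (211, [13, 41, 192961]),
   (212, [3, 11, 283]),
   (218, [11, 17, 59, 487]),
   (227, [3, 19, 587]),
   (236, [13, 64633]),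
   (238, [13, 37, 4777001]),
   (239, [3, 7, 271, 941]),
   (242, [3, 43, 163, 1031]),
   (247, [43, 991, 3949247]),
   (248, [7, 23, 587]),
   (251, [3, 67, 33119]),
   (254, [5, 17, 4957]),
   (259, [3, 19, 11458487]),
   (262, [3, 263, 2011]),
   (265, [277, 281]),
   (271, [11, 86531, 4160591]),
   (272, [3, 29, 179, 2027]),
   (278, [401, 45589]),
   (281, [3, 5, 31, 163]),
   (286, [3, 7, 2027]),
   (287, [3, 223, 887]),
   (290, [7949, 32237]),
   (295, [3, 79, 39107]),
   (296, [5, 4610849]),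
   (301, [709, 1297]),
   (305, [857, 3797]),
   (307, [7, 59, 61, 2467]),
   (311, [97, 2293]),
   (314, [11, 47, 113, 151]),
   (319, [17, 21521]),
   (326, [3, 7, 83, 3317947]),
   (331, [3, 3359, 49783]),
   (335, [101, 229, 3055177]),
   (347, [439, 1879, 261467]),
   (350, [557, 1549]),
   (355, [3, 19, 163, 491]),
   (356, [3, 47, 409, 739]),
   (358, [5, 17, 15497]),
   (359, [3, 7, 143711]),
   (362, [3, 11, 44563]),
   (367, [1493, 11897]),
   (371, [5, 3253, 22921, 651483373]),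
   (377, [19, 71, 16763]),
   (379, [3, 47, 20431]),
   (380, [5, 10289]),
   (382, [5, 709]),
   (386, [3, 151, 347]),
   (392, [5, 11, 43, 67, 257, 238877]),
   (398, [7, 1019, 2383]),
   (401, [3, 7, 6803987]),
   (406, [89, 2067581]),
   (409, [1093, 1097]),
   (415, [3, 7, 56687]),
   (419, [101, 4049]),
   (422, [3, 5, 59, 467]),
   (427, [5, 7, 223, 233, 503]),
   (431, [214541, 8455661]),
   (434, [5, 7, 13, 103, 467, 2001809]),
   (439, [7, 11, 47, 487]),
   (440, [5, 709]),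
   (445, [7, 23, 31, 38119]),
   (451, [7, 19, 347, 641]),
   (452, [17, 53, 1181]),
   (458, [3, 5, 31, 5023]),
   (470, [3, 7, 2027]),
   (475, [13, 41, 192961]),
   (476, [5, 23, 347, 11159]),
   (478, [3, 1931, 55051]),
   (479, [3, 7, 73823]),
   (488, [3, 11, 283]),
   (491, [3, 13, 103, 107]),
   (494, [3, 7, 23, 499]),
   (497, [3, 5, 31, 163]),
   (499, [3, 5, 11, 1801, 3083]),
   (500, [3, 277, 479, 4831]),
   (502, [5, 294029]),
   (511, [5, 1097, 13877]),
   (517, [3, 31, 233, 2467]),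
   (526, [5, 2074129]),
   (527, [11, 31, 137, 887, 8074427]),
   (530, [11, 107, 7159]),
   (535, [1429, 1433]),
   (539, [3, 5, 7, 11, 41, 53, 95342543]),
   (542, [3, 13, 17, 19, 787]),
   (545, [5, 13, 1481, 2633]),
   (548, [5, 61, 199429]),
   (550, [3, 11, 53, 659]),
   (560, [3, 7, 14543]),
   (566, [269, 101869, 25920409]),
   (571, [5, 7, 19, 13523]),
   (575, [3, 11, 1021, 2239]),
   (578, [11, 47, 113, 151]),
   (587, [17, 21521]),
   (589, [3, 13, 19, 29, 47, 491]),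
   (595, [3, 13, 103, 107]),
   (598, [5, 17, 8017]),
   (602, [5, 17, 4957]),
   (607, [7, 71, 28619]),
   (608, [421, 11597]),
   (611, [3, 13, 31, 223, 1453037]),
   (614, [5, 709]),
   (620, [7, 83, 107]),
   (622, [5, 6869]),
   (632, [3, 67, 1223]),
   (637, [5, 32207629]),
   (638, [7, 79, 17863]),
   (641, [929, 4113233]),
   (646, [3, 3183491, 181284979]),
   (647, [149, 4813]),
   (650, [5, 20789]),
   (655, [13, 9221]),
   (656, [5, 1395029]),
   (659, [7, 19, 3719, 109229]),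
   (661, [277, 281]),
   (665, [53, 239, 10223, 5093791]),
   (668, [5, 35210129]),
   (671, [709, 67477]),
   (674, [5, 149, 104281]),
   (679, [3, 79, 56171]),
   (686, [5, 1801, 43189]),
   (692, [59, 71, 44647, 2034191]),
   (707, [3, 7, 2111, 7933]),
   (710, [11, 47, 113, 151]),
   (715, [5, 13, 53813]),
   (716, [3, 523, 52967]),
   (718, [3, 19, 40823]),
   (722, [389, 12821]),
   (731, [3, 5, 7, 278390059]),
   (737, [13, 45361]),
   (740, [3, 7, 89, 11047447]),
   (746, [3, 7, 2027]),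
   (751, [13, 353, 3733]),
   (752, [19, 23, 29, 199, 4265003]),
   (758, [113, 252313]),
   (766, [3, 59, 113, 7451]),
   (767, [3, 5, 83, 3631811]),
   (769, [5, 566149]),
   (775, [3, 7, 509699]),
   (779, [5, 66514369]),
   (782, [1109, 28657]),
   (785, [941, 1933]),
   (787, [5, 1542509]),
   (791, [3, 11, 67, 193, 19388191]),
   (794, [3, 11, 4567]),
   (799, [3, 79, 1031, 56209]),
   (800, [17, 53, 1181]),
   (812, [5, 121789]),
   (815, [3, 5, 7, 43, 325783]),
   (818, [5, 193, 7433]),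
   (830, [19, 47, 2939]),
   (835, [13, 238229]),
   (836, [3, 5, 11003, 26111]),
   (838, [3, 7, 2027]),
   (839, [19, 619, 6133139]),
   (847, [3, 7, 449807]),
   (851, [3, 5, 7, 1091, 1439]),
   (854, [859, 3371, 8710627]),
   (859, [101, 4049]),
   (860, [97, 4013]),
   (862, [3, 11, 179, 22613]),
   (871, [47, 151, 79231]),
   (872, [1193, 123017]),
   (886, [3, 11, 23, 4259]),
   (890, [5, 7, 19, 1823]),
   (896, [3, 5, 7, 10939]),
   (902, [3, 151, 347]),
   (905, [3, 5, 11, 37, 43, 3413]),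
   (908, [3, 5, 7, 47, 3225377]),
   (910, [11, 19, 383]),
   (911, [3, 7, 139, 30869]),
   (919, [3, 5, 7, 131, 359]),
   (920, [7, 47, 2777, 116959]),
   (925, [277, 281]),
   (926, [19, 47, 9931]),
   (931, [5, 7, 11, 845387]),
   (935, [3, 11, 23, 1319]),
   (938, [5, 11, 19, 2063, 5167]),
   (947, [3, 31, 359]),
   (955, [3, 7, 37, 2298671]),
   (956, [3, 383, 463]),
   (958, [29, 18013]),
   (959, [5, 108891949]),
   (962, [5, 709]),
   (968, [47, 79, 22483, 34061]),
   (974, [11, 47, 113, 151]),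
   (977, [5, 24205009]),
   (979, [127, 239, 431, 14610503]),
   (980, [3, 83, 139]),
   (982, [131, 227, 1627]),
   (985, [881, 3733]),
   (992, [7, 31, 103, 10253]),
   (997, [3, 17, 59, 13799]),
   (998, [3, 5, 31, 5023])]

def covered (r : ℕ) : Bool := L1.any (fun e => Nat.beq (r % e.2.1) e.2.2)

set_option maxRecDepth 100000 in
theorem L1_ok : L1.all check1 = true := by decide +kernel

set_option maxRecDepth 100000 in
theorem L2_ok : L2.all check2 = true := by decide +kernel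

set_option maxRecDepth 100000 in
theorem small_ok : (List.range 1000).all (fun k => Nat.blt k 3 || (Nat.ble 8 k && covered k) ||
    L2.any (fun e => Nat.beq e.1 k)) = true := by decide +kernel

set_option maxRecDepth 100000 in
theorem card_ok : ((Finset.range 2520).filter (fun r => covered r = false)).card = 609 := by
  decide +kernel


lemma all_of {α : Type} {l : List α} {f : α → Bool} (h : l.all f = true) : ∀ x ∈ l, f x = true :=
  List.all_eq_true.1 h

lemma prod_ge (l : List ℕ) (hl : ∀ p ∈ l, p.Prime) (hne : l ≠ []) : 2 ≤ l.prod := by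
  obtain ⟨a, t, rfl⟩ := List.exists_cons_of_ne_nil hne
  have ha := hl a List.mem_cons_self
  have h0 : (a :: t).prod ≠ 0 := by
    rw [Ne, List.prod_eq_zero_iff]
    intro h
    exact Nat.not_prime_zero (hl 0 h)
  have hd : a ∣ (a :: t).prod := by rw [List.prod_cons]; exact dvd_mul_right _ _
  exact le_trans ha.two_le (Nat.le_of_dvd (Nat.pos_of_ne_zero h0) hd)

lemma pow_case (k : ℕ) (hk3 : 3 ≤ k) (h : k < 1000 ∨ covered (k % 2520) = true) :
    ∃ n : ℕ, 2 ≤ n ∧ n ≤ 2 ^ (2 ^ k) ∧ IsSondow (2 ^ (2 ^ k)) n := by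
  have main1 : 8 ≤ k → covered (k % 2520) = true →
      ∃ n : ℕ, 2 ≤ n ∧ n ≤ 2 ^ (2 ^ k) ∧ IsSondow (2 ^ (2 ^ k)) n := by
    intro hk8 hc
    unfold covered at hc
    rw [List.any_eq_true] at hc
    obtain ⟨e, he, hr⟩ := hc
    have hck := all_of L1_ok e he
    unfold check1 at hck
    simp only [Bool.and_eq_true] at hck
    obtain ⟨⟨⟨⟨⟨⟨⟨⟨h1, h2⟩, h3⟩, h4⟩, h5⟩, h6⟩, h7⟩, h8⟩, h9⟩ := hck
    have hprime : ∀ p ∈ e.1, p.Prime := fun p hp => (isP_spec p (all_of h1 p hp)).1
    have hne : e.1 ≠ [] := by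
      intro h0
      rw [h0] at h9
      simp at h9
    refine ⟨e.1.prod, prod_ge _ hprime hne, ?_, ?_⟩
    · have h3' := Nat.le_of_ble_eq_true h3
      have : 2 ^ 32 * 2 ^ 32 ≤ 2 ^ (2 ^ k) := by
        rw [← pow_add]
        apply Nat.pow_le_pow_right (by omega)
        calc 32 + 32 ≤ 2 ^ 8 := by norm_num
          _ ≤ 2 ^ k := Nat.pow_le_pow_right (by omega) hk8
      exact h3'.trans this
    · have hcast : ((2 : ℤ) ^ (2 ^ k)) = ((2 ^ (2 ^ k) : ℕ) : ℤ) := by push_cast; rfl
      rw [hcast]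
      refine sondow_of_list e.1 _ (sorted_spec _ h2) hprime ?_
      intro p hp
      have hpp := isP_spec p (all_of h1 p hp)
      have hple : p ≤ 2 ^ 32 := Nat.le_of_ble_eq_true (all_of h4 p hp)
      have hper : 2 ^ (2 ^ (8 + e.2.1)) ≡ 2 ^ (2 ^ 8) [MOD p] := by
        have e5 : X p (8 + e.2.1) = X p 8 := Nat.eq_of_beq_eq_true (all_of h5 p hp)
        have a1 := X_spec p (8 + e.2.1) hpp.1 hpp.2 hple
        have a2 := X_spec p 8 hpp.1 hpp.2 hple
        rw [e5] at a1
        exact a1.trans a2.symm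
      have e7 : 2520 % e.2.1 = 0 := Nat.eq_of_beq_eq_true h7
      have er : (k % 2520) % e.2.1 = e.2.2 := Nat.eq_of_beq_eq_true hr
      have hT : 0 < e.2.1 := Nat.le_of_ble_eq_true h8
      have hmod : k % e.2.1 = (2520 + e.2.2) % e.2.1 := by
        rw [Nat.add_mod, e7, zero_add, Nat.mod_mod, ← er, Nat.mod_mod]
        exact (Nat.mod_mod_of_dvd k (Nat.dvd_of_mod_eq_zero e7)).symm
      have a3 := period2 p e.2.1 hper k (2520 + e.2.2) hk8 (by omega) hmod
      have a4 := X_spec p (2520 + e.2.2) hpp.1 hpp.2 hple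
      have a5 := a3.trans a4
      have e6 : (e.1.prod / p + X p (2520 + e.2.2)) % p = 0 :=
        Nat.eq_of_beq_eq_true (all_of h6 p hp)
      have a6 : e.1.prod / p + 2 ^ (2 ^ k) ≡ e.1.prod / p + X p (2520 + e.2.2) [MOD p] :=
        Nat.ModEq.add_left _ a5
      exact Nat.dvd_of_mod_eq_zero (Eq.trans (a6 : _ % p = _ % p) e6)
  by_cases hk : k < 1000
  · have hs := all_of small_ok k (List.mem_range.2 hk)
    rw [Bool.or_eq_true, Bool.or_eq_true, Bool.and_eq_true] at hs
    rcases hs with (h1 | ⟨h1, h2⟩) | h1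
    · have := Nat.blt_eq.mp h1
      omega
    · have h1' := Nat.le_of_ble_eq_true h1
      have : k % 2520 = k := Nat.mod_eq_of_lt (by omega)
      exact main1 h1' (by rw [this]; exact h2)
    · rw [List.any_eq_true] at h1
      obtain ⟨e, he, hek⟩ := h1
      have hek' : e.1 = k := Nat.eq_of_beq_eq_true hek
      have hck := all_of L2_ok e he
      unfold check2 at hck
      simp only [Bool.and_eq_true] at hck
      obtain ⟨⟨⟨⟨⟨h1, h2⟩, h3⟩, h4⟩, h6⟩, h9⟩ := hck
      rw [hek'] at h3 h6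
      have hprime : ∀ p ∈ e.2, p.Prime := fun p hp => (isP_spec p (all_of h1 p hp)).1
      have hne : e.2 ≠ [] := by
        intro h0
        rw [h0] at h9
        simp at h9
      refine ⟨e.2.prod, prod_ge _ hprime hne, ?_, ?_⟩
      · have h3' := Nat.le_of_ble_eq_true h3
        refine h3'.trans ?_
        exact Nat.pow_le_pow_right (by omega) (Nat.pow_le_pow_right (by omega) (min_le_left _ _))
      · have hcast : ((2 : ℤ) ^ (2 ^ k)) = ((2 ^ (2 ^ k) : ℕ) : ℤ) := by push_cast; rfl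
        rw [hcast]
        refine sondow_of_list e.2 _ (sorted_spec _ h2) hprime ?_
        intro p hp
        have hpp := isP_spec p (all_of h1 p hp)
        have hple : p ≤ 2 ^ 32 := Nat.le_of_ble_eq_true (all_of h4 p hp)
        have a5 := X_spec p k hpp.1 hpp.2 hple
        have e6 : (e.2.prod / p + X p k) % p = 0 :=
          Nat.eq_of_beq_eq_true (all_of h6 p hp)
        have a6 : e.2.prod / p + 2 ^ (2 ^ k) ≡ e.2.prod / p + X p k [MOD p] :=
          Nat.ModEq.add_left _ a5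
        exact Nat.dvd_of_mod_eq_zero (Eq.trans (a6 : _ % p = _ % p) e6)
  · have hc : covered (k % 2520) = true := by
      rcases h with h | h
      · exact absurd h hk
      · exact h
    exact main1 (by omega) hc

lemma sondow_prime (μ : ℤ) (p : ℕ) (hp : p.Prime) (h : (p : ℤ) ∣ 1 + μ) : IsSondow μ p := by
  refine ⟨hp.pos, ?_⟩
  intro q s hq hs hd _
  have hqp : q ∣ p := dvd_trans (dvd_pow_self q hs.ne') hd
  have hqe : q = p := (Nat.prime_dvd_prime_iff_eq hq hp).1 hqp
  subst hqe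
  have hs1 : s = 1 := by
    by_contra hne
    have h2 : 2 ≤ s := by omega
    have h3 : q ^ 2 ∣ q := dvd_trans (pow_dvd_pow q h2) hd
    have h4 := Nat.le_of_dvd hq.pos h3
    have h5 := hq.two_le
    nlinarith
  subst hs1
  rw [pow_one, Nat.div_self hq.pos]
  exact_mod_cast h

lemma sondow_two_pow (μ : ℤ) (a : ℕ) (h : ∃ m : ℤ, Odd m ∧ μ = 2 ^ a * m) :
    IsSondow μ (2 ^ (a + 1)) := by
  obtain ⟨m, hm, rfl⟩ := h
  refine ⟨by positivity, ?_⟩
  intro q s hq hs hd hnd
  have hq2 : q ∣ 2 ^ (a + 1) := dvd_trans (dvd_pow_self q hs.ne') hd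
  have hqe : q = 2 := (Nat.prime_dvd_prime_iff_eq hq Nat.prime_two).1 (hq.dvd_of_dvd_pow hq2)
  subst hqe
  have h1 : s ≤ a + 1 := (Nat.pow_dvd_pow_iff_le_right (by omega)).1 hd
  have h2 : ¬ (s + 1 ≤ a + 1) := fun h => hnd (Nat.pow_dvd_pow 2 h)
  have hs1 : s = a + 1 := by omega
  subst hs1
  have e : 2 ^ (a + 1) / 2 = 2 ^ a := by rw [pow_succ]; simp
  rw [e]
  obtain ⟨t, rfl⟩ := hm
  refine ⟨t + 1, ?_⟩
  push_cast
  ring

/-- **Main theorem.**  There is a set `R` of `609` residue classes modulo `2520` such that every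
counterexample `μ` to the conjecture is of the form `μ = 2^(2^k)` where `k ≥ 1000`, the Fermat
number `2^(2^k) + 1` is prime, and `k mod 2520` lies in `R`. -/
theorem result : ∃ R : Finset ℕ, R ⊆ Finset.range 2520 ∧ R.card = 609 ∧
    ∀ μ : ℤ, μ ∉ ({0, 1, -1, 2, -2, 4, 16} : Set ℤ) →
      (¬ ∃ k : ℕ, 1000 ≤ k ∧ k % 2520 ∈ R ∧ (2 ^ (2 ^ k) + 1).Prime ∧ μ = 2 ^ (2 ^ k)) →
      ∃ n : ℕ, 2 ≤ n ∧ (n : ℤ) ≤ |μ| ∧ IsSondow μ n := by
  refine ⟨(Finset.range 2520).filter (fun r => covered r = false), Finset.filter_subset _ _,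
    card_ok, ?_⟩
  intro μ hμ hex
  simp only [Set.mem_insert_iff, Set.mem_singleton_iff, not_or] at hμ
  obtain ⟨h0, h1, hm1, h2, hm2, h4, h16⟩ := hμ
  have hna : μ.natAbs ≠ 0 := by simpa using h0
  obtain ⟨a, m, hmodd, hm⟩ := Nat.exists_eq_two_pow_mul_odd hna
  have habs : |μ| = 2 ^ a * (m : ℤ) := by
    rw [Int.abs_eq_natAbs, hm]; push_cast; rfl
  by_cases hm3 : 3 ≤ m
  · refine ⟨2 ^ (a + 1), ?_, ?_, ?_⟩
    · have : 1 ≤ 2 ^ a := Nat.one_le_two_pow
      rw [pow_succ]; omega
    · rw [habs]; push_cast; rw [pow_succ]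
      have : (0 : ℤ) < 2 ^ a := by positivity
      have hm' : (3 : ℤ) ≤ m := by exact_mod_cast hm3
      nlinarith
    · apply sondow_two_pow
      rcases abs_choice μ with h | h
      · refine ⟨m, by exact_mod_cast hmodd, ?_⟩
        rw [← h, habs]
      · refine ⟨-m, Odd.neg (by exact_mod_cast hmodd), ?_⟩
        have : μ = - |μ| := by rw [h]; ring
        rw [this, habs]; ring
  · have hm1' : m = 1 := by
      obtain ⟨t, ht⟩ := hmodd
      omega
    subst hm1'
    have habs' : |μ| = 2 ^ a := by rw [habs]; push_cast; ring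
    rcases abs_choice μ with h | h
    · -- μ = 2 ^ a
      have hμ2 : μ = 2 ^ a := by rw [← h, habs']
      have ha3 : 3 ≤ a := by
        by_contra hlt
        have : a = 0 ∨ a = 1 ∨ a = 2 := by omega
        rcases this with rfl | rfl | rfl
        · exact h1 (by rw [hμ2]; norm_num)
        · exact h2 (by rw [hμ2]; norm_num)
        · exact h4 (by rw [hμ2]; norm_num)
      have ha4 : a ≠ 4 := by
        rintro rfl
        exact h16 (by rw [hμ2]; norm_num)
      by_cases hpr : (2 ^ a + 1).Prime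
      · obtain ⟨k, hk⟩ := Nat.pow_of_pow_add_prime (by norm_num : 1 < 2) (by omega : a ≠ 0) hpr
        have hk3 : 3 ≤ k := by
          by_contra hlt
          have : k = 0 ∨ k = 1 ∨ k = 2 := by omega
          rcases this with rfl | rfl | rfl
          · omega
          · omega
          · omega
        have hcase : k < 1000 ∨ covered (k % 2520) = true := by
          by_contra hcon
          push Not at hcon
          obtain ⟨hc1, hc2⟩ := hcon
          apply hex
          refine ⟨k, hc1, ?_, ?_, ?_⟩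
          · rw [Finset.mem_filter, Finset.mem_range]
            exact ⟨Nat.mod_lt _ (by norm_num), by simpa using hc2⟩
          · rw [← hk]; exact hpr
          · rw [hμ2, hk]
        obtain ⟨n, hn2, hnle, hnS⟩ := pow_case k hk3 hcase
        refine ⟨n, hn2, ?_, ?_⟩
        · rw [habs', hk]; exact_mod_cast hnle
        · rw [hμ2, hk]; exact hnS
      · have hne1 : 2 ^ a + 1 ≠ 1 := by
          have : 0 < 2 ^ a := by positivity
          omega
        have hq : (2 ^ a + 1).minFac.Prime := Nat.minFac_prime hne1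
        have hle : (2 ^ a + 1).minFac ≤ 2 ^ a := by
          have h5 := Nat.minFac_le (by positivity : 0 < 2 ^ a + 1)
          have h6 : (2 ^ a + 1).minFac ≠ 2 ^ a + 1 := by
            intro h7
            exact hpr (h7 ▸ hq)
          omega
        refine ⟨(2 ^ a + 1).minFac, hq.two_le, ?_, ?_⟩
        · rw [habs']; exact_mod_cast hle
        · apply sondow_prime _ _ hq
          rw [hμ2]
          have := Nat.minFac_dvd (2 ^ a + 1)
          have h8 : ((2 ^ a + 1 : ℕ) : ℤ) = 1 + 2 ^ a := by push_cast; ring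
          rw [← h8]
          exact_mod_cast this
    · -- μ = - 2 ^ a
      have hμ2 : μ = - 2 ^ a := by
        have : μ = - |μ| := by rw [h]; ring
        rw [this, habs']
      have ha2 : 2 ≤ a := by
        by_contra hlt
        have : a = 0 ∨ a = 1 := by omega
        rcases this with rfl | rfl
        · exact hm1 (by rw [hμ2]; norm_num)
        · exact hm2 (by rw [hμ2]; norm_num)
      have h4a : 4 ≤ 2 ^ a := by
        calc 4 = 2 ^ 2 := by norm_num
          _ ≤ 2 ^ a := Nat.pow_le_pow_right (by omega) ha2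
      have hq : (2 ^ a - 1).minFac.Prime := Nat.minFac_prime (by omega)
      refine ⟨(2 ^ a - 1).minFac, hq.two_le, ?_, ?_⟩
      · rw [habs']
        have h5 := Nat.minFac_le (by omega : 0 < 2 ^ a - 1)
        have h6 : (2 ^ a - 1).minFac ≤ 2 ^ a := by omega
        exact_mod_cast h6
      · apply sondow_prime _ _ hq
        rw [hμ2]
        have h7 := Nat.minFac_dvd (2 ^ a - 1)
        have h8 : (1 : ℤ) + - 2 ^ a = - ((2 ^ a - 1 : ℕ) : ℤ) := by
          rw [Nat.cast_sub (by omega)]; push_cast; ring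
        rw [h8, dvd_neg]
        exact_mod_cast h7

end Pool.Agent.Results.MP_f2d551_nt.FermatReduction
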